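import Mathlib
import Pool.Agent.P.MP_f3d782_pr.Defs
import Pool.Agent.P.MP_f3d782_pr.Q2.Core

set_option autoImplicit false

namespace Pool.Agent.Results.MP_f3d782_pr.FinitaryFactor

open MeasureTheory Pool.Agent.P.MP_f3d782_pr

/-- The 3-coloring `Y = C^(3)` is a finitary factor of the 4-coloring `X = C^(4)`, with coding
radius larger than `r` with probability at most `C (log r)^2 / r`. -/
theorem result (X : Measure (ℤ → Fin 4)) (Y : Measure (ℤ → Fin 3))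
    (hX : IsColoringLaw 4 X) (hY : IsColoringLaw 3 Y) :
    ∃ F : (ℤ → Fin 4) → (ℤ → Fin 3), Measurable F ∧
      (∀ x, F (fun i => x (i + 1)) = fun i => F x (i + 1)) ∧ X.map F = Y ∧
      (∀ᵐ x ∂X, ∃ R : ℕ, ∀ x' : ℤ → Fin 4, (∀ i : ℤ, |i| ≤ R → x' i = x i) → F x' 0 = F x 0) ∧
      ∃ C : ℝ, ∀ r : ℕ, 2 ≤ r →
        X.real {x | ¬ ∀ x' : ℤ → Fin 4, (∀ i : ℤ, |i| ≤ r → x' i = x i) → F x' 0 = F x 0} ≤
          C * Real.log r ^ 2 / r := by
  have hP := Q2.law_of hX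
  have hQ := Q2.law_of hY
  have hp : ∀ y, Q2.nu 3 y ≠ 0 → Pr y := fun _ => Q2.pr_of_nu
  refine ⟨Q2.FF (Q2.nu 3), Q2.meas_FF _, fun x => funext fun i => ?_,
    Q2.map_FF hP hQ Q2.gap_three hp, Q2.ae_fin hP hQ Q2.gap_three hp,
    _, Q2.tail hP hQ Q2.gap_three hp⟩
  simp only [Q2.FF, add_assoc]

end Pool.Agent.Results.MP_f3d782_pr.FinitaryFactor
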