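import Mathlib
import Pool.Agent.P.MP_f3d782_pr.Defs
import Pool.Agent.P.MP_f3d782_pr.Bridge
import Pool.Agent.P.MP_f3d782_pr.Final

set_option autoImplicit false

namespace Pool.Agent.Results.MP_f3d782_pr.NoBlockFactor

open MeasureTheory Pool.Agent.P.MP_f3d782_pr

/-- Neither of the colorings `X = C^(4)` and `Y = C^(3)` is a block-factor of the other. -/
theorem result (X : Measure (ℤ → Fin 4)) (Y : Measure (ℤ → Fin 3))
    (hX : IsColoringLaw 4 X) (hY : IsColoringLaw 3 Y) :
    ¬ IsBlockFactor Y X ∧ ¬ IsBlockFactor X Y := by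
  constructor
  · intro h
    obtain ⟨ρ, g, H⟩ := hyp_of_blockFactor hX hY T_four_pos T_three_pos (by norm_num) h
    exact not_hyp_four_three ρ g H
  · intro h
    obtain ⟨ρ, g, H⟩ := hyp_of_blockFactor hY hX T_three_pos T_four_pos (by norm_num) h
    exact not_hyp_three_four ρ g H

end Pool.Agent.Results.MP_f3d782_pr.NoBlockFactor
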